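import Pool.Agent.Helper16.MD.Stmts

/-!
# Module ENY: energy of the mixed family
-/

open Finset Filter
open scoped ComplexConjugate

namespace Pool.Agent.Helper16.MD

/-- the signs -/
private def eny_e (l : ℕ) (i : Fin (2 * l)) : ℤ := if i.1 < l then 1 else -1

/-- the numerator of the signed sum of the inverses -/
private def eny_N (l : ℕ) (t : Fin (2 * l) → ℕ) : ℤ :=
  ∑ i, eny_e l i * ∏ j ∈ univ.erase i, (t j : ℤ)

/-- the denominator -/
private def eny_M (l : ℕ) (t : Fin (2 * l) → ℕ) : ℤ := ∏ i, (t i : ℤ)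

private lemma eny_key (d l : ℕ) (t : Fin (2 * l) → ℕ)
    (ht : ∀ i, IsUnit (t i : ZMod d)) :
    (∑ i : Fin (2 * l), (if i.1 < l then 1 else -1) * (t i : ZMod d)⁻¹) *
      ((eny_M l t : ℤ) : ZMod d) = ((eny_N l t : ℤ) : ZMod d) := by
  unfold eny_M eny_N
  rw [Finset.sum_mul]
  push_cast
  refine Finset.sum_congr rfl fun i _ => ?_
  have h1 : (∏ j : Fin (2 * l), (t j : ZMod d)) =
      (t i : ZMod d) * ∏ j ∈ univ.erase i, (t j : ZMod d) :=
    (Finset.mul_prod_erase univ _ (Finset.mem_univ i)).symm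
  have h2 : ((eny_e l i : ℤ) : ZMod d) = if i.1 < l then 1 else -1 := by
    unfold eny_e
    split_ifs <;> simp
  rw [h1, h2, mul_assoc, ← mul_assoc ((t i : ZMod d)⁻¹), mul_comm ((t i : ZMod d)⁻¹),
    ZMod.mul_inv_of_unit _ (ht i), one_mul]

private lemma eny_Mb (l B : ℕ) (t : Fin (2 * l) → ℕ) (hB : ∀ i, t i ≤ B) :
    0 ≤ eny_M l t ∧ eny_M l t ≤ (B : ℤ) ^ (2 * l) := by
  unfold eny_M
  constructor
  · exact Finset.prod_nonneg fun i _ => by positivity
  · calc ∏ i, (t i : ℤ) ≤ ∏ _i : Fin (2 * l), (B : ℤ) :=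
        Finset.prod_le_prod (fun i _ => by positivity) fun i _ => by exact_mod_cast hB i
      _ = (B : ℤ) ^ (2 * l) := by simp

private lemma eny_Nb (l B : ℕ) (hl : 1 ≤ l) (t : Fin (2 * l) → ℕ) (hB : ∀ i, t i ≤ B) :
    |eny_N l t| ≤ l * (B : ℤ) ^ (2 * l - 1) := by
  have hP : ∀ i : Fin (2 * l), 0 ≤ ∏ j ∈ univ.erase i, (t j : ℤ) ∧
      ∏ j ∈ univ.erase i, (t j : ℤ) ≤ (B : ℤ) ^ (2 * l - 1) := by
    intro i
    constructor
    · exact Finset.prod_nonneg fun j _ => by positivity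
    · calc ∏ j ∈ univ.erase i, (t j : ℤ) ≤ ∏ _j ∈ (univ : Finset (Fin (2 * l))).erase i, (B : ℤ) :=
          Finset.prod_le_prod (fun j _ => by positivity) fun j _ => by exact_mod_cast hB j
        _ = (B : ℤ) ^ (2 * l - 1) := by
          rw [Finset.prod_const, Finset.card_erase_of_mem (Finset.mem_univ i)]
          simp
  have hc1 : ((univ : Finset (Fin (2 * l))).filter fun i => i.1 < l).card = l := by
    have : ((univ : Finset (Fin (2 * l))).filter fun i => i.1 < l).card =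
        (Finset.range l).card := by
      refine Finset.card_bij (fun i _ => i.1) ?_ ?_ ?_
      · intro i hi
        simpa using hi
      · intro i _ j _ hij
        exact Fin.ext hij
      · intro b hb
        have hb' : b < l := by simpa using hb
        exact ⟨⟨b, by omega⟩, by simpa using hb', rfl⟩
    rw [this, Finset.card_range]
  have hc2 : ((univ : Finset (Fin (2 * l))).filter fun i => ¬ i.1 < l).card = l := by
    have h := Finset.card_filter_add_card_filter_not (s := (univ : Finset (Fin (2 * l))))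
      (fun i => i.1 < l)
    rw [hc1, Finset.card_univ, Fintype.card_fin] at h
    omega
  have hs : eny_N l t = ∑ i ∈ univ.filter (fun i : Fin (2 * l) => i.1 < l),
      ∏ j ∈ univ.erase i, (t j : ℤ) -
      ∑ i ∈ univ.filter (fun i : Fin (2 * l) => ¬ i.1 < l), ∏ j ∈ univ.erase i, (t j : ℤ) := by
    unfold eny_N
    rw [← Finset.sum_filter_add_sum_filter_not univ (fun i : Fin (2 * l) => i.1 < l),
      sub_eq_add_neg, ← Finset.sum_neg_distrib]
    congr 1
    · refine Finset.sum_congr rfl fun i hi => ?_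
      have hi' : i.1 < l := by simpa using hi
      simp [eny_e, hi']
    · refine Finset.sum_congr rfl fun i hi => ?_
      have hi' : ¬ i.1 < l := by simpa using hi
      simp only [eny_e, if_neg hi']
      ring
  have b1 : ∑ i ∈ univ.filter (fun i : Fin (2 * l) => i.1 < l),
      ∏ j ∈ univ.erase i, (t j : ℤ) ≤ l * (B : ℤ) ^ (2 * l - 1) := by
    have := Finset.sum_le_card_nsmul (univ.filter (fun i : Fin (2 * l) => i.1 < l))
      (fun i => ∏ j ∈ univ.erase i, (t j : ℤ)) ((B : ℤ) ^ (2 * l - 1)) (fun i _ => (hP i).2)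
    rw [hc1, nsmul_eq_mul] at this
    exact this
  have b2 : ∑ i ∈ univ.filter (fun i : Fin (2 * l) => ¬ i.1 < l),
      ∏ j ∈ univ.erase i, (t j : ℤ) ≤ l * (B : ℤ) ^ (2 * l - 1) := by
    have := Finset.sum_le_card_nsmul (univ.filter (fun i : Fin (2 * l) => ¬ i.1 < l))
      (fun i => ∏ j ∈ univ.erase i, (t j : ℤ)) ((B : ℤ) ^ (2 * l - 1)) (fun i _ => (hP i).2)
    rw [hc2, nsmul_eq_mul] at this
    exact this
  have b3 : 0 ≤ ∑ i ∈ univ.filter (fun i : Fin (2 * l) => i.1 < l),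
      ∏ j ∈ univ.erase i, (t j : ℤ) := Finset.sum_nonneg fun i _ => (hP i).1
  have b4 : 0 ≤ ∑ i ∈ univ.filter (fun i : Fin (2 * l) => ¬ i.1 < l),
      ∏ j ∈ univ.erase i, (t j : ℤ) := Finset.sum_nonneg fun i _ => (hP i).1
  rw [hs, abs_le]
  constructor <;> linarith

/-- a prime of the family does not divide the numerator -/
private lemma eny_nd (l : ℕ) (t : Fin (2 * l) → ℕ) (hp : ∀ i, (t i).Prime)
    (hinj : Function.Injective t) (i : Fin (2 * l)) : ¬ ((t i : ℕ) : ℤ) ∣ eny_N l t := by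
  intro h
  have hpi : Prime ((t i : ℕ) : ℤ) := Nat.prime_iff_prime_int.mp (hp i)
  have h1 : eny_N l t = eny_e l i * ∏ j ∈ univ.erase i, (t j : ℤ) +
      ∑ m ∈ univ.erase i, eny_e l m * ∏ j ∈ univ.erase m, (t j : ℤ) := by
    unfold eny_N
    exact (Finset.add_sum_erase univ _ (Finset.mem_univ i)).symm
  have h2 : ((t i : ℕ) : ℤ) ∣
      ∑ m ∈ univ.erase i, eny_e l m * ∏ j ∈ univ.erase m, (t j : ℤ) := by
    refine Finset.dvd_sum fun m hm => ?_
    have hmi : m ≠ i := (Finset.mem_erase.mp hm).1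
    exact dvd_mul_of_dvd_right (Finset.dvd_prod_of_mem (fun j => (t j : ℤ))
      (Finset.mem_erase.mpr ⟨hmi.symm, Finset.mem_univ i⟩)) _
  rw [h1] at h
  have h3 := (Int.dvd_add_left h2).mp h
  rcases hpi.dvd_or_dvd h3 with h4 | h4
  · have h5 : eny_e l i = 1 ∨ eny_e l i = -1 := by
      unfold eny_e
      split_ifs
      · exact Or.inl rfl
      · exact Or.inr rfl
    have h6 : ((t i : ℕ) : ℤ) ∣ 1 := by
      rcases h5 with h5 | h5
      · rwa [h5] at h4
      · rw [h5] at h4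
        exact (Int.dvd_neg).mp h4
    exact hpi.not_isUnit (isUnit_of_dvd_one h6)
  · obtain ⟨j, hj, hdj⟩ := (hpi.dvd_finsetProd_iff _).mp h4
    have h5 : t i ∣ t j := by exact_mod_cast hdj
    have h6 : t i = t j := (Nat.prime_dvd_prime_iff_eq (hp i) (hp j)).mp h5
    exact (Finset.mem_erase.mp hj).1 (hinj h6).symm

private lemma eny_T (Q : Finset ℕ) (hQ : ∀ p ∈ Q, p.Prime) (N N' : ℤ) (hN : N ≠ 0) :
    ((Q ×ˢ Q).filter fun u : ℕ × ℕ => (u.2 : ℤ) * N = u.1 * N').card ≤ Q.card + 1 := by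
  classical
  rw [← Finset.card_filter_add_card_filter_not (s := (Q ×ˢ Q).filter
    fun u : ℕ × ℕ => (u.2 : ℤ) * N = u.1 * N') (fun u => u.1 = u.2)]
  refine Nat.add_le_add ?_ ?_
  · refine Finset.card_le_card_of_injOn (fun u => u.1) ?_ ?_
    · intro u hu
      simp only [Finset.coe_filter, Finset.mem_filter, Finset.mem_product,
        Set.mem_ofPred_eq] at hu
      exact hu.1.1.1
    · intro u hu v hv huv
      simp only [Finset.coe_filter, Finset.mem_filter, Finset.mem_product,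
        Set.mem_ofPred_eq] at hu hv
      have huv' : u.1 = v.1 := huv
      exact Prod.ext huv' (by rw [← hu.2, ← hv.2, huv'])
  · rw [Finset.card_le_one]
    intro u hu v hv
    simp only [Finset.mem_filter, Finset.mem_product] at hu hv
    obtain ⟨⟨⟨hu1, hu2⟩, hu3⟩, hu4⟩ := hu
    obtain ⟨⟨⟨hv1, hv2⟩, hv3⟩, hv4⟩ := hv
    have e1 : ((u.2 : ℤ) * v.1 - u.1 * v.2) * N = 0 := by
      linear_combination (v.1 : ℤ) * hu3 - (u.1 : ℤ) * hv3
    have e2 : (u.2 : ℤ) * v.1 = u.1 * v.2 := by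
      rcases mul_eq_zero.mp e1 with h | h
      · linarith
      · exact absurd h hN
    have e3 : u.2 * v.1 = u.1 * v.2 := by exact_mod_cast e2
    have e4 : u.1 ∣ u.2 * v.1 := ⟨v.2, e3⟩
    rcases (Nat.Prime.dvd_mul (hQ _ hu1)).mp e4 with h | h
    · exact absurd ((Nat.prime_dvd_prime_iff_eq (hQ _ hu1) (hQ _ hu2)).mp h) hu4
    · have h1 : u.1 = v.1 := (Nat.prime_dvd_prime_iff_eq (hQ _ hu1) (hQ _ hv1)).mp h
      have h2 : u.2 = v.2 := by
        rw [← h1, mul_comm] at e3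
        exact Nat.eq_of_mul_eq_mul_left (hQ _ hu1).pos e3
      exact Prod.ext h1 h2

/-- coincidences: the second family is a permutation of the first one -/
private lemma eny_co (j k l d : ℕ) [NeZero d] (Q₂ Q₃ : Finset ℕ) (h2 : Pb d j Q₂)
    (h3 : Pb d k Q₃) (hjk : j + 1 ≤ k) (hl : 1 ≤ l)
    (hd : 4 * l * 2 ^ k * 2 ^ ((j + 1) * (4 * l - 1)) < d) (p p' : ℕ) (t t' : Fin (2 * l) → ℕ)
    (hp : p ∈ Q₃) (hp' : p' ∈ Q₃) (ht : ∀ i, t i ∈ Q₂) (ht' : ∀ i, t' i ∈ Q₂)
    (hi : Function.Injective t) (h : yv d l (p, t) = yv d l (p', t')) :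
    ∃ σ : Equiv.Perm (Fin (2 * l)), t' = t ∘ σ ∧ (p' : ℤ) * eny_N l t = p * eny_N l t' := by
  have hun : ∀ q : ℕ, q.Prime → ¬ q ∣ d → IsUnit (q : ZMod d) := by
    intro q hq hqd
    rw [ZMod.isUnit_iff_coprime]
    exact (Nat.Prime.coprime_iff_not_dvd hq).mpr hqd
  have up : IsUnit (p : ZMod d) := hun p (h3 p hp).1 (h3 p hp).2.2.2
  have up' : IsUnit (p' : ZMod d) := hun p' (h3 p' hp').1 (h3 p' hp').2.2.2
  have ut : ∀ i, IsUnit (t i : ZMod d) := fun i => hun _ (h2 _ (ht i)).1 (h2 _ (ht i)).2.2.2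
  have ut' : ∀ i, IsUnit (t' i : ZMod d) := fun i => hun _ (h2 _ (ht' i)).1 (h2 _ (ht' i)).2.2.2
  have k1 := eny_key d l t ut
  have k2 := eny_key d l t' ut'
  unfold yv at h
  set s : ZMod d := ∑ i : Fin (2 * l), (if i.1 < l then 1 else -1) * (t i : ZMod d)⁻¹ with hs
  set s' : ZMod d := ∑ i : Fin (2 * l), (if i.1 < l then 1 else -1) * (t' i : ZMod d)⁻¹ with hs'
  have hh : (p : ZMod d)⁻¹ * s = (p' : ZMod d)⁻¹ * s' := h
  have ip := ZMod.mul_inv_of_unit _ up
  have ip' := ZMod.mul_inv_of_unit _ up'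
  have e1 : (p' : ZMod d) * s = p * s' := by
    calc (p' : ZMod d) * s = p' * (((p : ZMod d) * (p : ZMod d)⁻¹) * s) := by rw [ip, one_mul]
      _ = p' * (p * ((p : ZMod d)⁻¹ * s)) := by ring
      _ = p' * (p * ((p' : ZMod d)⁻¹ * s')) := by rw [hh]
      _ = p * (((p' : ZMod d) * (p' : ZMod d)⁻¹) * s') := by ring
      _ = p * s' := by rw [ip', one_mul]
  have e2 : (((p' : ℤ) * eny_N l t * eny_M l t' : ℤ) : ZMod d) =
      ((p * eny_N l t' * eny_M l t : ℤ) : ZMod d) := by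
    push_cast
    rw [← k1, ← k2]
    linear_combination ((eny_M l t : ℤ) : ZMod d) * ((eny_M l t' : ℤ) : ZMod d) * e1
  -- equality in the integers
  have bt : ∀ i, t i ≤ 2 ^ (j + 1) := fun i => (h2 _ (ht i)).2.2.1
  have bt' : ∀ i, t' i ≤ 2 ^ (j + 1) := fun i => (h2 _ (ht' i)).2.2.1
  have bp : p ≤ 2 ^ (k + 1) := (h3 p hp).2.2.1
  have bp' : p' ≤ 2 ^ (k + 1) := (h3 p' hp').2.2.1
  have bnd : ∀ (q : ℕ) (r r' : Fin (2 * l) → ℕ), q ≤ 2 ^ (k + 1) → (∀ i, r i ≤ 2 ^ (j + 1)) →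
      (∀ i, r' i ≤ 2 ^ (j + 1)) →
      |(q : ℤ) * eny_N l r * eny_M l r'| ≤ 2 * l * 2 ^ k * 2 ^ ((j + 1) * (4 * l - 1)) := by
    intro q r r' hq hr hr'
    have a1 := eny_Nb l (2 ^ (j + 1)) hl r hr
    have a2 := eny_Mb l (2 ^ (j + 1)) r' hr'
    have a3 : (q : ℤ) ≤ 2 ^ (k + 1) := by exact_mod_cast hq
    rw [abs_mul, abs_mul, abs_of_nonneg a2.1, abs_of_nonneg (Int.natCast_nonneg q)]
    have a4 : (q : ℤ) * |eny_N l r| ≤ 2 ^ (k + 1) * (l * (((2 ^ (j + 1) : ℕ) : ℤ)) ^ (2 * l - 1)) :=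
      mul_le_mul a3 a1 (abs_nonneg _) (by positivity)
    calc (q : ℤ) * |eny_N l r| * eny_M l r' ≤
        2 ^ (k + 1) * (l * (((2 ^ (j + 1) : ℕ) : ℤ)) ^ (2 * l - 1)) *
          (((2 ^ (j + 1) : ℕ) : ℤ)) ^ (2 * l) := mul_le_mul a4 a2.2 a2.1 (by positivity)
      _ = 2 * l * 2 ^ k * 2 ^ ((j + 1) * (4 * l - 1)) := by
        have e1 : (2 : ℤ) ^ ((j + 1) * (4 * l - 1)) =
            (2 ^ (j + 1)) ^ (2 * l - 1) * (2 ^ (j + 1)) ^ (2 * l) := by
          rw [← pow_mul, ← pow_mul, ← pow_add, ← mul_add]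
          congr 2
          omega
        rw [e1]
        push_cast
        ring
  have c1 := bnd p' t t' bp' bt bt'
  have c2 := bnd p t' t bp bt' bt
  have e3 : (p' : ℤ) * eny_N l t * eny_M l t' = p * eny_N l t' * eny_M l t := by
    have h5 : (((p' : ℤ) * eny_N l t * eny_M l t' - p * eny_N l t' * eny_M l t : ℤ) : ZMod d) =
        0 := by
      rw [Int.cast_sub, e2, sub_self]
    have h6 : (d : ℤ) ∣ (p' : ℤ) * eny_N l t * eny_M l t' - p * eny_N l t' * eny_M l t :=
      (ZMod.intCast_zmod_eq_zero_iff_dvd _ _).mp h5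
    have h7 : |(p' : ℤ) * eny_N l t * eny_M l t' - p * eny_N l t' * eny_M l t| < d := by
      have := abs_sub ((p' : ℤ) * eny_N l t * eny_M l t') (p * eny_N l t' * eny_M l t)
      have hd' : (4 * l * 2 ^ k * 2 ^ ((j + 1) * (4 * l - 1)) : ℤ) < d := by exact_mod_cast hd
      linarith
    have h8 := Int.eq_zero_of_abs_lt_dvd h6 h7
    linarith
  -- every prime of the first family is in the second one
  have hex : ∀ i, ∃ m, t i = t' m := by
    intro i
    have hpi : Prime ((t i : ℕ) : ℤ) := Nat.prime_iff_prime_int.mp (h2 _ (ht i)).1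
    have g1 : ((t i : ℕ) : ℤ) ∣ (p' : ℤ) * eny_N l t * eny_M l t' := by
      rw [e3]
      exact dvd_mul_of_dvd_right
        (Finset.dvd_prod_of_mem (fun j => (t j : ℤ)) (Finset.mem_univ i)) _
    rcases hpi.dvd_or_dvd g1 with g2 | g2
    · rcases hpi.dvd_or_dvd g2 with g3 | g3
      · exfalso
        have g4 : t i ∣ p' := by exact_mod_cast g3
        have g5 : t i = p' := (Nat.prime_dvd_prime_iff_eq (h2 _ (ht i)).1 (h3 _ hp').1).mp g4
        have g6 := bt i
        have g7 : 2 ^ k < p' := (h3 p' hp').2.1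
        have g8 : 2 ^ (j + 1) ≤ 2 ^ k := Nat.pow_le_pow_right (by norm_num) hjk
        omega
      · exact absurd g3 (eny_nd l t (fun i => (h2 _ (ht i)).1) hi i)
    · obtain ⟨m, _, hm⟩ := (hpi.dvd_finsetProd_iff _).mp g2
      have g3 : t i ∣ t' m := by exact_mod_cast hm
      exact ⟨m, (Nat.prime_dvd_prime_iff_eq (h2 _ (ht i)).1 (h2 _ (ht' m)).1).mp g3⟩
  choose τ hτ using hex
  have hτi : Function.Injective τ := by
    intro a b hab
    apply hi
    rw [hτ a, hτ b, hab]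
  have hτb : Function.Bijective τ := Finite.injective_iff_bijective.mp hτi
  refine ⟨(Equiv.ofBijective τ hτb).symm, ?_, ?_⟩
  · funext m
    have : τ ((Equiv.ofBijective τ hτb).symm m) = m :=
      (Equiv.ofBijective τ hτb).apply_symm_apply m
    rw [Function.comp_apply, hτ, this]
  · have hM : eny_M l t = eny_M l t' := by
      unfold eny_M
      rw [← Equiv.prod_comp (Equiv.ofBijective τ hτb) (fun i => (t' i : ℤ))]
      refine Finset.prod_congr rfl fun i _ => ?_
      rw [hτ i]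
      rfl
    have hM0 : eny_M l t' ≠ 0 := by
      unfold eny_M
      refine Finset.prod_ne_zero_iff.mpr fun i _ => ?_
      have := (h2 _ (ht' i)).1.pos
      exact_mod_cast this.ne'
    rw [hM] at e3
    exact mul_right_cancel₀ hM0 e3

theorem st_ENY : ST_ENY := by
  classical
  intro j k l d _ Q₂ Q₃ h2 h3 hjk hl hd
  unfold JJ
  set S := (YY Q₂ Q₃ l ×ˢ YY Q₂ Q₃ l).filter (fun u => yv d l u.1 = yv d l u.2) with hS
  have hmem : ∀ u ∈ S, u.1.1 ∈ Q₃ ∧ (∀ i, u.1.2 i ∈ Q₂) ∧ Function.Injective u.1.2 ∧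
      u.2.1 ∈ Q₃ ∧ (∀ i, u.2.2 i ∈ Q₂) ∧ yv d l u.1 = yv d l u.2 := by
    intro u hu
    rw [hS] at hu
    simp only [YY, Finset.mem_filter, Finset.mem_product, Fintype.mem_piFinset] at hu
    tauto
  have hco : ∀ u ∈ S, ∃ σ : Equiv.Perm (Fin (2 * l)), u.2.2 = u.1.2 ∘ σ ∧
      (u.2.1 : ℤ) * eny_N l u.1.2 = u.1.1 * eny_N l u.2.2 := by
    intro u hu
    obtain ⟨a1, a2, a3, a4, a5, a6⟩ := hmem u hu
    exact eny_co j k l d Q₂ Q₃ h2 h3 hjk hl hd u.1.1 u.2.1 u.1.2 u.2.2 a1 a4 a2 a5 a3 a6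
  choose! sg hsg1 hsg2 using hco
  have hcard := Finset.card_le_mul_card_image_of_maps_to (s := S)
    (t := (Fintype.piFinset fun _ : Fin (2 * l) => Q₂) ×ˢ
      (univ : Finset (Equiv.Perm (Fin (2 * l))))) (f := fun u => (u.1.2, sg u))
    (by
      intro u hu
      obtain ⟨a1, a2, a3, a4, a5, a6⟩ := hmem u hu
      simp only [Finset.mem_product, Fintype.mem_piFinset, Finset.mem_univ, and_true]
      exact a2) (Q₃.card + 1) (by
      intro b hb
      by_cases hne : (S.filter fun u => (u.1.2, sg u) = b).Nonempty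
      · obtain ⟨w, hw⟩ := hne
        rw [Finset.mem_filter] at hw
        obtain ⟨hwS, hwb⟩ := hw
        obtain ⟨a1, a2, a3, a4, a5, a6⟩ := hmem w hwS
        have hb1 : b.1 = w.1.2 := by rw [← hwb]
        have hinj : Function.Injective b.1 := by rw [hb1]; exact a3
        have hQb : ∀ i, b.1 i ∈ Q₂ := by rw [hb1]; exact a2
        have hN : eny_N l b.1 ≠ 0 := by
          intro h0
          have := eny_nd l b.1 (fun i => (h2 _ (hQb i)).1) hinj ⟨0, by omega⟩
          apply this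
          rw [h0]
          exact dvd_zero _
        refine le_trans ?_ (eny_T Q₃ (fun p hp => (h3 p hp).1) (eny_N l b.1)
          (eny_N l (b.1 ∘ b.2)) hN)
        refine Finset.card_le_card_of_injOn (fun u => (u.1.1, u.2.1)) ?_ ?_
        · intro u hu
          simp only [Finset.coe_filter, Finset.mem_filter, Set.mem_ofPred_eq] at hu
          obtain ⟨huS, hub⟩ := hu
          obtain ⟨c1, c2, c3, c4, c5, c6⟩ := hmem u huS
          have g1 : u.1.2 = b.1 := by rw [← hub]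
          have g2 : sg u = b.2 := by rw [← hub]
          have g3 := hsg1 u huS
          have g4 := hsg2 u huS
          rw [g3, g1, g2] at g4
          simp only [Finset.coe_filter, Finset.mem_product, Set.mem_ofPred_eq]
          exact ⟨⟨c1, c4⟩, g4⟩
        · intro u hu v hv huv
          simp only [Finset.coe_filter, Finset.mem_filter, Set.mem_ofPred_eq] at hu hv
          obtain ⟨huS, hub⟩ := hu
          obtain ⟨hvS, hvb⟩ := hv
          have g1 : u.1.2 = b.1 := by rw [← hub]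
          have g2 : sg u = b.2 := by rw [← hub]
          have g3 := hsg1 u huS
          have g1' : v.1.2 = b.1 := by rw [← hvb]
          have g2' : sg v = b.2 := by rw [← hvb]
          have g3' := hsg1 v hvS
          have g5 : u.1.1 = v.1.1 ∧ u.2.1 = v.2.1 := by simpa using huv
          refine Prod.ext (Prod.ext g5.1 (by rw [g1, g1'])) (Prod.ext g5.2 ?_)
          rw [g3, g3', g1, g1', g2, g2']
      · rw [Finset.not_nonempty_iff_eq_empty] at hne
        rw [hne]
        simp)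
  rw [Finset.card_product, Fintype.card_piFinset_const, Finset.card_univ, Fintype.card_perm,
    Fintype.card_fin] at hcard
  calc S.card ≤ (Q₃.card + 1) * (Q₂.card ^ (2 * l) * (2 * l).factorial) := hcard
    _ = (2 * l).factorial * Q₂.card ^ (2 * l) * (Q₃.card + 1) := by ring

end Pool.Agent.Helper16.MD
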