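import Pool.Agent.Helper16.MD.Stmts

/-!
# Module ESB: moduli of intermediate size
-/

open Finset Filter
open scoped ComplexConjugate

namespace Pool.Agent.Helper16.MD

private lemma esb_pow (m : ℕ) (A c : ℝ) (hc : 0 < c) :
    ∀ᶠ i : ℕ in atTop, A * (i : ℝ) ^ m ≤ c * 2 ^ i := by
  have h1 : Tendsto (fun n : ℕ => A * ((n : ℝ) ^ m / (2 : ℝ) ^ n)) atTop (nhds (A * 0)) :=
    (tendsto_pow_const_div_const_pow_of_one_lt m (by norm_num)).const_mul A
  rw [mul_zero] at h1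
  filter_upwards [h1.eventually (gt_mem_nhds hc)] with i hi
  have h2 : (0 : ℝ) < 2 ^ i := by positivity
  have h3 : A * ((i : ℝ) ^ m / (2 : ℝ) ^ i) * 2 ^ i = A * (i : ℝ) ^ m := by
    field_simp
  calc A * (i : ℝ) ^ m = A * ((i : ℝ) ^ m / (2 : ℝ) ^ i) * 2 ^ i := h3.symm
    _ ≤ c * 2 ^ i := mul_le_mul_of_nonneg_right hi.le h2.le

/-- the case of small moduli -/
private lemma esb_A (X ε q₁ q₃ d i k K Ei Ek : ℝ) (hX : 0 ≤ X) (hε : 0 < ε)
    (hq₁ : 0 < q₁) (hq₃ : 0 < q₃) (hd : 0 < d) (hi : 1 ≤ i) (hk : 0 ≤ k) (hkK : k ≤ K * i)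
    (hEi : 0 < Ei) (hdi : d ≤ 2 * Ei) (hik : 2 * Ei ≤ Ek)
    (h1 : Ei ≤ 4 * i * q₁) (h3 : Ek ≤ 4 * k * q₃) (hdd : Ei < d ^ 2)
    (hB : X ^ 2 ≤ d * (q₁ * (Ei / d + 1)) * (q₃ * (Ek / d + 1)))
    (hL : (96 * K) ^ 2 * i ^ 4 ≤ ε ^ 4 * Ei) : X ≤ ε * q₁ * q₃ := by
  have e1 : Ei / d + 1 ≤ 3 * Ei / d := by
    rw [le_div_iff₀ hd, add_mul, div_mul_cancel₀ _ hd.ne']
    linarith
  have e2 : Ek / d + 1 ≤ 2 * Ek / d := by
    rw [le_div_iff₀ hd, add_mul, div_mul_cancel₀ _ hd.ne']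
    linarith
  have hEk : 0 < Ek := by linarith
  have e3 : X ^ 2 ≤ d * (q₁ * (3 * Ei / d)) * (q₃ * (2 * Ek / d)) := by
    refine hB.trans ?_
    gcongr
  have e4 : d * (q₁ * (3 * Ei / d)) * (q₃ * (2 * Ek / d)) = 6 * q₁ * q₃ * (Ei * Ek) / d := by
    field_simp
    ring
  have e5 : Ei * Ek ≤ (4 * i * q₁) * (4 * k * q₃) :=
    mul_le_mul h1 h3 hEk.le (by positivity)
  have hKi : 0 ≤ K * i := hk.trans hkK
  have e6 : 96 * (K * i) * i ≤ ε ^ 2 * d := by
    have h5 : (96 * (K * i) * i) ^ 2 ≤ (ε ^ 2 * d) ^ 2 := by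
      calc (96 * (K * i) * i) ^ 2 = (96 * K) ^ 2 * i ^ 4 := by ring
        _ ≤ ε ^ 4 * Ei := hL
        _ ≤ ε ^ 4 * d ^ 2 := mul_le_mul_of_nonneg_left hdd.le (by positivity)
        _ = (ε ^ 2 * d) ^ 2 := by ring
    exact (pow_le_pow_iff_left₀ (by positivity) (by positivity) two_ne_zero).mp h5
  have e7 : X ^ 2 ≤ (ε * q₁ * q₃) ^ 2 := by
    calc X ^ 2 ≤ 6 * q₁ * q₃ * (Ei * Ek) / d := by rw [← e4]; exact e3
      _ ≤ 6 * q₁ * q₃ * ((4 * i * q₁) * (4 * k * q₃)) / d := by gcongr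
      _ = 96 * k * i / d * (q₁ * q₃) ^ 2 := by
        field_simp
        ring
      _ ≤ ε ^ 2 * (q₁ * q₃) ^ 2 := by
        refine mul_le_mul_of_nonneg_right ?_ (by positivity)
        rw [div_le_iff₀ hd]
        refine le_trans ?_ e6
        have : 0 ≤ i := by linarith
        gcongr
      _ = (ε * q₁ * q₃) ^ 2 := by ring
  exact (pow_le_pow_iff_left₀ hX (by positivity) two_ne_zero).mp e7

theorem st_ESB (hBIL : ST_BIL) (hHOL : ST_HOL) (hENA : ST_ENA) (hENX : ST_ENX)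
    (hKMX : ST_KMX) : ST_ESB := by
  intro ε₀ K hε₀
  set ε : ℝ := min ε₀ 1 with hεdef
  have hε : 0 < ε := lt_min hε₀ one_pos
  have hε1 : ε ≤ 1 := min_le_right _ _
  have ev := (((esb_pow 4 ((96 * K) ^ 2) (ε ^ 4) (by positivity)).and
    (esb_pow 2 (32 * K * (2 * K).factorial) (ε ^ (4 * K)) (by positivity))).and
    (esb_pow (4 * K + 2) (64 * ((2 * K + 1) * 2 ^ (4 * K + 1)) * K ^ 2 *
      ((2 * K).factorial) ^ 2 * 4 ^ (4 * K)) (ε ^ (8 * K)) (by positivity))).and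
    (eventually_ge_atTop (2 * K + 1))
  obtain ⟨I₀, hI₀⟩ := eventually_atTop.mp ev
  refine ⟨I₀, ?_⟩
  intro i k d hdz Q₁ Q₃ b hi hik hkK hdd hd2 hb hP1 hP3
  obtain ⟨⟨⟨L1, L2⟩, L3⟩, L4⟩ := hI₀ i hi
  have hi1 : 1 ≤ i := by omega
  have hk1 : 1 ≤ k := by omega
  have hd0 : 0 < d := Nat.pos_of_ne_zero (NeZero.ne d)
  have hdR : (0 : ℝ) < d := by exact_mod_cast hd0
  have hiR : (1 : ℝ) ≤ i := by exact_mod_cast hi1
  have hkR : (1 : ℝ) ≤ k := by exact_mod_cast hk1
  have hkKR : (k : ℝ) ≤ K * i := by exact_mod_cast hkK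
  have c1 : (2 : ℝ) ^ i ≤ 4 * i * Q₁.card := by exact_mod_cast hP1.2
  have c3 : (2 : ℝ) ^ k ≤ 4 * k * Q₃.card := by exact_mod_cast hP3.2
  have hq1n : 1 ≤ Q₁.card := by
    by_contra h0
    have h1 : Q₁.card = 0 := by omega
    have := hP1.2
    rw [h1, mul_zero] at this
    have h2 : 0 < 2 ^ i := by positivity
    omega
  have hq3n : 1 ≤ Q₃.card := by
    by_contra h0
    have h1 : Q₃.card = 0 := by omega
    have := hP3.2
    rw [h1, mul_zero] at this
    have h2 : 0 < 2 ^ k := by positivity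
    omega
  have hq1 : (1 : ℝ) ≤ Q₁.card := by exact_mod_cast hq1n
  have hq3 : (1 : ℝ) ≤ Q₃.card := by exact_mod_cast hq3n
  have hE1 := hENA i d Q₁ hP1.1
  have hE3 := hENA k d Q₃ hP3.1
  have hfin : ‖S2 b Q₁ Q₃‖ ≤ ε * Q₁.card * Q₃.card := by
    rcases le_or_gt d (2 ^ (i + 1)) with hc | hc
    · have hB := hBIL ℕ ℕ d Q₁ Q₃ (fun p : ℕ => (p : ZMod d)⁻¹) (fun p : ℕ => (p : ZMod d)⁻¹)
        (fun _ => 1) (fun _ => 1) b hb (fun _ => by simp) (fun _ => by simp)
      have hS : ∑ p ∈ Q₁, ∑ r ∈ Q₃, (1 : ℂ) * 1 * ed (b * (p : ZMod d)⁻¹ * (r : ZMod d)⁻¹) =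
          S2 b Q₁ Q₃ := by
        unfold S2
        simp only [one_mul]
      have hB' : ‖S2 b Q₁ Q₃‖ ^ 2 ≤ (d : ℝ) * (Q₁.card * ((2 : ℝ) ^ i / d + 1)) *
          (Q₃.card * ((2 : ℝ) ^ k / d + 1)) := by
        rw [← hS]
        refine hB.trans ?_
        have p1 : (0 : ℝ) ≤ (2 : ℝ) ^ i / d + 1 := by positivity
        have p3 : (0 : ℝ) ≤ (2 : ℝ) ^ k / d + 1 := by positivity
        exact mul_le_mul (mul_le_mul_of_nonneg_left hE1 hdR.le) hE3 (by positivity)
          (by positivity)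
      refine esb_A _ ε Q₁.card Q₃.card d i k K (2 ^ i) (2 ^ k) (norm_nonneg _) hε
        (by linarith) (by linarith) hdR hiR (by linarith) hkKR (by positivity) ?_ ?_ c1 c3 ?_
        hB' L1
      · have : (d : ℝ) ≤ 2 ^ (i + 1) := by exact_mod_cast hc
        rw [pow_succ] at this
        linarith
      · have : (2 : ℝ) ^ (i + 1) ≤ 2 ^ k := pow_le_pow_right₀ (by norm_num) (by omega)
        rw [pow_succ] at this
        linarith
      · exact_mod_cast hdd
    · have hdu : d ≤ 2 ^ (2 * K * i) := by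
        have h1 : d * 2 ^ (2 * i) ≤ 2 ^ (2 * K * i) * 2 ^ (2 * i) := by
          refine hd2.trans ?_
          rw [← pow_add]
          refine Nat.pow_le_pow_right (by norm_num) ?_
          nlinarith
        exact Nat.le_of_mul_le_mul_right h1 (by positivity)
      obtain ⟨t, ht1, htK, htl, htu⟩ := hKMX (2 * K) i d hi1 hc hdu
      have hH := hHOL ℕ d t Q₃ (fun p : ℕ => (p : ZMod d)⁻¹) Q₁ (fun p : ℕ => (p : ZMod d)⁻¹) b
        ht1 hb
      have hS : ∑ p ∈ Q₁, ∑ r ∈ Q₃, ed (b * (p : ZMod d)⁻¹ * (r : ZMod d)⁻¹) =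
          S2 b Q₁ Q₃ := rfl
      rw [hS] at hH
      have ht2i : t < 2 ^ i := by
        have : i < 2 ^ i := Nat.lt_two_pow_self
        omega
      have hJK := hENX i t d Q₁ hP1.1 ht1 ht2i htl
      have hJKR : (JK Q₁ (fun p : ℕ => (p : ZMod d)⁻¹) t : ℝ) ≤
          t.factorial * (Q₁.card : ℝ) ^ t := by exact_mod_cast hJK
      by_contra hcon
      push Not at hcon
      set q₁ : ℝ := (Q₁.card : ℝ) with hq₁
      set q₃ : ℝ := (Q₃.card : ℝ) with hq₃
      have hq1p : 0 < q₁ := by linarith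
      have hq3p : 0 < q₃ := by linarith
      have g1 : (ε * q₁ * q₃) ^ (2 * t) < ‖S2 b Q₁ Q₃‖ ^ (2 * t) :=
        pow_lt_pow_left₀ hcon (by positivity) (by omega)
      have g2 : (ε * q₁ * q₃) ^ (2 * t) <
          q₃ ^ (2 * t - 2) * d * (t.factorial * q₁ ^ t) * (q₃ * ((2 : ℝ) ^ k / d + 1)) := by
        refine g1.trans_le (hH.trans ?_)
        refine mul_le_mul (mul_le_mul_of_nonneg_left hJKR (by positivity)) hE3 (by positivity)
          (by positivity)
      have g3 : q₃ ^ (2 * t - 2) * d * (t.factorial * q₁ ^ t) * (q₃ * ((2 : ℝ) ^ k / d + 1)) =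
          (q₃ ^ (2 * t - 1) * q₁ ^ t) * (t.factorial * (2 ^ k + d)) := by
        have h1 : 2 * t - 1 = (2 * t - 2) + 1 := by omega
        rw [h1, pow_succ]
        field_simp
      have g4 : (ε * q₁ * q₃) ^ (2 * t) =
          (q₃ ^ (2 * t - 1) * q₁ ^ t) * (ε ^ (2 * t) * q₁ ^ t * q₃) := by
        have h1 : 2 * t = (2 * t - 1) + 1 := by omega
        have h2 : q₃ ^ (2 * t) = q₃ ^ (2 * t - 1) * q₃ := by
          conv_lhs => rw [h1, pow_succ]
        have h3 : q₁ ^ (2 * t) = q₁ ^ t * q₁ ^ t := by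
          rw [two_mul, pow_add]
        rw [mul_pow, mul_pow, h2, h3]
        ring
      rw [g3, g4] at g2
      have g5 : ε ^ (2 * t) * q₁ ^ t * q₃ < t.factorial * (2 ^ k + d) :=
        lt_of_mul_lt_mul_left g2 (by positivity)
      have g6 : ε ^ (4 * K) ≤ ε ^ (2 * t) := pow_le_pow_of_le_one hε.le hε1 (by omega)
      have g7 : ε ^ (4 * K) * q₁ ^ t * q₃ < t.factorial * (2 ^ k + d) := by
        refine lt_of_le_of_lt ?_ g5
        gcongr
      have hfac : (t.factorial : ℝ) ≤ (2 * K).factorial := by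
        exact_mod_cast Nat.factorial_le htK
      have hfp : (0 : ℝ) < t.factorial := by exact_mod_cast Nat.factorial_pos t
      have hfp2 : (0 : ℝ) < (2 * K).factorial := by exact_mod_cast Nat.factorial_pos (2 * K)
      rcases le_or_gt (d : ℝ) (2 ^ k) with hdk | hdk
      · have k1 : ε ^ (4 * K) * q₁ ^ t * q₃ < 8 * k * t.factorial * q₃ := by
          refine g7.trans_le ?_
          have : (2 : ℝ) ^ k + d ≤ 8 * k * q₃ := by linarith
          nlinarith
        have k2 : ε ^ (4 * K) * q₁ ^ t < 8 * k * t.factorial :=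
          lt_of_mul_lt_mul_right k1 hq3p.le
        have k3 : q₁ ≤ q₁ ^ t := le_self_pow₀ hq1 (by omega)
        have k4 : ε ^ (4 * K) * q₁ < 8 * k * t.factorial := by
          refine lt_of_le_of_lt ?_ k2
          gcongr
        have k5 : (8 : ℝ) * k * t.factorial ≤ 8 * (K * i) * (2 * K).factorial := by gcongr
        have k6 : ε ^ (4 * K) * 2 ^ i ≤ ε ^ (4 * K) * (4 * i * q₁) := by gcongr
        have k7 : ε ^ (4 * K) * (4 * i * q₁) < 4 * i * (8 * (K * i) * (2 * K).factorial) := by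
          calc ε ^ (4 * K) * (4 * i * q₁) = 4 * i * (ε ^ (4 * K) * q₁) := by ring
            _ < 4 * i * (8 * (K * i) * (2 * K).factorial) :=
              mul_lt_mul_of_pos_left (k4.trans_le k5) (by linarith)
        have k8 : (4 : ℝ) * i * (8 * (K * i) * (2 * K).factorial) =
            32 * K * (2 * K).factorial * (i : ℝ) ^ 2 := by ring
        linarith
      · have k1 : ε ^ (4 * K) * q₁ ^ t * q₃ < 2 * d * t.factorial := by
          refine g7.trans_le ?_
          nlinarith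
        have k2 : ε ^ (4 * K) * ((4 * i * q₁) ^ t * (4 * k * q₃)) <
            2 * d * t.factorial * ((4 * i) ^ t * (4 * k)) := by
          have hpos : (0 : ℝ) < (4 * i) ^ t * (4 * k) := by positivity
          calc ε ^ (4 * K) * ((4 * i * q₁) ^ t * (4 * k * q₃)) =
              ε ^ (4 * K) * q₁ ^ t * q₃ * ((4 * i) ^ t * (4 * k)) := by
                rw [mul_pow]
                ring
            _ < _ := mul_lt_mul_of_pos_right k1 hpos
        have k3 : ε ^ (4 * K) * (((2 : ℝ) ^ i) ^ t * 2 ^ k) <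
            2 * d * t.factorial * ((4 * i) ^ t * (4 * k)) := by
          refine lt_of_le_of_lt ?_ k2
          gcongr
        have k4 : (ε ^ (4 * K) * (((2 : ℝ) ^ i) ^ t * 2 ^ k)) ^ 2 <
            (2 * d * t.factorial * ((4 * i) ^ t * (4 * k))) ^ 2 :=
          pow_lt_pow_left₀ k3 (by positivity) two_ne_zero
        -- bounds for `d`
        have m1 : (d : ℝ) ≤ (t + 1) * 2 ^ ((i + 1) * (2 * t + 1)) := by exact_mod_cast htu
        have m2 : (d : ℝ) * 2 ^ (2 * i) ≤ 2 ^ (2 * k) := by exact_mod_cast hd2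
        have m3 : (2 : ℝ) ^ ((i + 1) * (2 * t + 1)) =
            ((2 : ℝ) ^ i) ^ (2 * t) * 2 ^ i * 2 ^ (2 * t + 1) := by
          rw [← pow_mul, ← pow_add, ← pow_add]
          congr 1
          ring
        have m4 : (2 : ℝ) ^ (2 * k) = (2 ^ k) ^ 2 := by rw [mul_comm, pow_mul]
        have m5 : (2 : ℝ) ^ (2 * i) = (2 ^ i) ^ 2 := by rw [mul_comm, pow_mul]
        set E : ℝ := 2 ^ i with hE
        have hEp : 0 < E := by positivity
        set F : ℝ := 2 ^ k with hF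
        have hFp : 0 < F := by positivity
        rw [m3] at m1
        rw [m4, m5] at m2
        have k5 : (ε ^ (4 * K) * (E ^ t * F)) ^ 2 * E ^ 2 <
            (2 * d * t.factorial * ((4 * i) ^ t * (4 * k))) ^ 2 * E ^ 2 :=
          mul_lt_mul_of_pos_right k4 (by positivity)
        have k6 : (2 * d * t.factorial * ((4 * i) ^ t * (4 * k))) ^ 2 * E ^ 2 ≤
            (F ^ 2 * ((t + 1) * (E ^ (2 * t) * E * 2 ^ (2 * t + 1)))) *
              (64 * k ^ 2 * (t.factorial : ℝ) ^ 2 * (4 * i) ^ (2 * t)) := by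
          calc (2 * d * t.factorial * ((4 * i) ^ t * (4 * k))) ^ 2 * E ^ 2 =
              ((d * E ^ 2) * d) * (64 * k ^ 2 * (t.factorial : ℝ) ^ 2 * (4 * i) ^ (2 * t)) := by
                rw [mul_comm 2 t, pow_mul]
                ring
            _ ≤ _ := by
                refine mul_le_mul_of_nonneg_right ?_ (by positivity)
                exact mul_le_mul m2 m1 hdR.le (by positivity)
        have k7 : (ε ^ (4 * K) * (E ^ t * F)) ^ 2 * E ^ 2 =
            (F ^ 2 * E ^ (2 * t) * E) * (ε ^ (8 * K) * E) := by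
          have h1 : ε ^ (8 * K) = (ε ^ (4 * K)) ^ 2 := by
            rw [← pow_mul]
            congr 1
            ring
          have h2 : E ^ (2 * t) = (E ^ t) ^ 2 := by
            rw [mul_comm 2 t, pow_mul]
          rw [h1, h2]
          ring
        have k8 : (F ^ 2 * E ^ (2 * t) * E) * (ε ^ (8 * K) * E) <
            (F ^ 2 * E ^ (2 * t) * E) * (64 * ((t + 1) * 2 ^ (2 * t + 1)) * k ^ 2 *
              (t.factorial : ℝ) ^ 2 * (4 * i) ^ (2 * t)) := by
          rw [← k7]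
          refine (k5.trans_le k6).trans_le (le_of_eq ?_)
          ring
        have k9 : ε ^ (8 * K) * E < 64 * ((t + 1) * 2 ^ (2 * t + 1)) * k ^ 2 *
              (t.factorial : ℝ) ^ 2 * (4 * i) ^ (2 * t) :=
          lt_of_mul_lt_mul_left k8 (by positivity)
        have htR : (t : ℝ) ≤ 2 * K := by exact_mod_cast htK
        have n1 : (2 : ℝ) ^ (2 * t + 1) ≤ 2 ^ (4 * K + 1) :=
          pow_le_pow_right₀ (by norm_num) (by omega)
        have n2 : (4 * (i : ℝ)) ^ (2 * t) ≤ (4 * i) ^ (4 * K) :=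
          pow_le_pow_right₀ (by linarith) (by omega)
        have k10 : 64 * ((t + 1) * 2 ^ (2 * t + 1)) * (k : ℝ) ^ 2 *
              (t.factorial : ℝ) ^ 2 * (4 * i) ^ (2 * t) ≤
            64 * ((2 * K + 1) * 2 ^ (4 * K + 1)) * (K * i) ^ 2 *
              ((2 * K).factorial : ℝ) ^ 2 * (4 * i) ^ (4 * K) := by
          gcongr
        have k11 : 64 * ((2 * K + 1) * 2 ^ (4 * K + 1)) * ((K : ℝ) * i) ^ 2 *
              ((2 * K).factorial : ℝ) ^ 2 * (4 * i) ^ (4 * K) =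
            64 * ((2 * K + 1) * 2 ^ (4 * K + 1)) * K ^ 2 *
      ((2 * K).factorial) ^ 2 * 4 ^ (4 * K) * (i : ℝ) ^ (4 * K + 2) := by
          rw [mul_pow, mul_pow, pow_add]
          ring
        linarith
  refine hfin.trans ?_
  have : ε ≤ ε₀ := min_le_left _ _
  gcongr

end Pool.Agent.Helper16.MD
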